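import Pool.Agent.Helper15.AM.GoalsG

/-!
# Project AM (MP_cc6379_al), packet AM-GD (helper16): two descents.
-/

set_option autoImplicit false

open Pool.Agent.Helper15.RA Pool.Agent.Helper15.AM Pool.Agent.Helper45.AM CoxeterSystem

namespace Pool.Agent.Helper16.AM

section

variable {S W : Type} [Group W] {M : CoxeterMatrix S} (cs : CoxeterSystem M W)

theorem al_inv (i j : S) (k : ℕ) : al cs i j k = (cs.wordProd (alternatingWord j i k))⁻¹ := by
  induction k generalizing i j with
  | zero => simp [al, alternatingWord]
  | succ k ih =>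
    rw [al, ih j i, alternatingWord_succ, wordProd_concat, mul_inv_rev, inv_simple]

theorem al_eq (i j : S) (k : ℕ) : al cs i j k =
    if Even k then cs.wordProd (alternatingWord i j k) else cs.wordProd (alternatingWord j i k) := by
  induction k generalizing i j with
  | zero => simp [al, alternatingWord]
  | succ k ih =>
    rw [al, ih j i]
    by_cases hk : Even k
    · have h1 : ¬ Even (k + 1) := by simp [hk, parity_simps]
      rw [if_pos hk, if_neg h1, alternatingWord_succ', if_pos hk, wordProd_cons]
    · have h1 : Even (k + 1) := by simp [hk, parity_simps]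
      rw [if_neg hk, if_pos h1, alternatingWord_succ', if_neg hk, wordProd_cons]

theorem braid (i j : S) : cs.wordProd (alternatingWord i j (M i j)) =
    cs.wordProd (alternatingWord j i (M i j)) := by
  have h := cs.wordProd_braidWord_eq i j
  unfold braidWord at h
  rwa [M.symmetric j i] at h

theorem al_m (i j : S) : al cs i j (M i j) = cs.wordProd (alternatingWord i j (M i j)) := by
  rw [al_eq, ← braid cs i j, ite_self]

theorem al_m' (i j : S) : al cs j i (M i j) = cs.wordProd (alternatingWord i j (M i j)) := by
  rw [al_eq, ← braid cs i j, ite_self]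

theorem al_m_inv (i j : S) : (al cs i j (M i j))⁻¹ = al cs i j (M i j) := by
  rw [al_m, al_inv_aux cs i j]
where
  al_inv_aux (cs : CoxeterSystem M W) (i j : S) :
      (cs.wordProd (alternatingWord i j (M i j)))⁻¹ = cs.wordProd (alternatingWord i j (M i j)) := by
    rw [← al_inv cs j i (M i j), al_m']

/-- A reduced word has no two equal neighbours at its end. -/
theorem no_rep (η : List S) (a : S) (h : cs.IsReduced ((η.concat a).concat a)) : False := by
  have h1 := h.eq
  rw [wordProd_concat, wordProd_concat, mul_assoc, simple_mul_simple_self, mul_one] at h1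
  have h2 := cs.length_wordProd_le η
  simp at h1
  omega

theorem red_concat (η : List S) (a : S) (h : cs.IsReduced (η.concat a)) : cs.IsReduced η := by
  have h1 := h.take η.length
  simpa [List.concat_eq_append] using h1

/-- A reduced word in two letters is alternating. -/
theorem alt (i j : S) (ω : List S) : cs.IsReduced ω → (∀ a ∈ ω, a = i ∨ a = j) →
    ω = alternatingWord i j ω.length ∨ ω = alternatingWord j i ω.length := by
  induction ω using List.reverseRecOn with
  | nil => intro _ _; left; simp [alternatingWord]
  | append_singleton η a ih =>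
    intro hr hl
    rw [← List.concat_eq_append] at hr
    have hη := red_concat cs η a hr
    have hlη : ∀ b ∈ η, b = i ∨ b = j := fun b hb => hl b (by simp [hb])
    have ha : a = i ∨ a = j := hl a (by simp)
    have hlen : (η ++ [a]).length = η.length + 1 := by simp
    rw [hlen, ← List.concat_eq_append]
    -- the last letter of `η` is not `a`
    have key : ∀ (p q : S), η = alternatingWord p q η.length → η.length ≠ 0 → a ≠ q := by
      intro p q he hn haq
      obtain ⟨n, hn'⟩ := Nat.exists_eq_succ_of_ne_zero hn
      rw [hn', Nat.succ_eq_add_one, alternatingWord_succ] at he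
      rw [he, haq] at hr
      exact no_rep cs _ _ hr
    by_cases h0 : η.length = 0
    · have hnil : η = [] := List.length_eq_zero_iff.1 h0
      subst hnil
      rcases ha with rfl | rfl
      · right; simp [alternatingWord]
      · left; simp [alternatingWord]
    · rcases ih hη hlη with he | he
      · -- `η` ends in `j`, so `a = i`
        have h1 := key i j he h0
        have ha' : a = i := ha.resolve_right h1
        right
        rw [alternatingWord_succ, ← he, ha']
      · have h1 := key j i he h0
        have ha' : a = j := ha.resolve_left h1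
        left
        rw [alternatingWord_succ, ← he, ha']

/-- The word that ends in `i`. -/
theorem alt_last (i j : S) (hij : i ≠ j) (η : List S) (hr : cs.IsReduced (η.concat i))
    (hl : ∀ a ∈ η, a = i ∨ a = j) : η.concat i = alternatingWord j i (η.length + 1) := by
  have h := alt cs i j (η.concat i) hr (by
    intro a ha
    rw [List.concat_eq_append, List.mem_append, List.mem_singleton] at ha
    rcases ha with ha | ha
    · exact hl a ha
    · exact Or.inl ha)
  rw [List.length_concat] at h
  rcases h with h | h
  · rw [alternatingWord_succ] at h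
    have := List.of_concat_eq_concat h
    exact absurd this.2 hij
  · exact h

/-- Powers. -/
theorem pow_one_of_eq (i j : S) (k : ℕ) (h : cs.wordProd (alternatingWord j i k) =
    cs.wordProd (alternatingWord i j k)) : (cs.simple i * cs.simple j) ^ k = 1 := by
  rw [prod_alternatingWord_eq_mul_pow, prod_alternatingWord_eq_mul_pow] at h
  have hinv : cs.simple j * cs.simple i = (cs.simple i * cs.simple j)⁻¹ := by
    rw [mul_inv_rev, inv_simple, inv_simple]
  rcases Nat.even_or_odd' k with ⟨t, rfl | rfl⟩
  · have he : Even (2 * t) := even_two_mul t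
    rw [if_pos he, if_pos he, one_mul, one_mul, hinv, inv_pow] at h
    have h2 : 2 * t / 2 = t := by omega
    rw [h2] at h
    rw [two_mul, pow_add]
    nth_rw 1 [← h]
    rw [inv_mul_cancel]
  · have he : ¬ Even (2 * t + 1) := by simp [parity_simps]
    have h2 : (2 * t + 1) / 2 = t := by omega
    rw [if_neg he, if_neg he, h2] at h
    -- `s_i (s_j s_i)^t = s_j (s_i s_j)^t`
    have h3 : (cs.simple j * cs.simple i) ^ (t + 1) = (cs.simple i * cs.simple j) ^ t := by
      rw [pow_succ', mul_assoc, h, ← mul_assoc, simple_mul_simple_self, one_mul]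
    rw [hinv, inv_pow, inv_eq_iff_mul_eq_one, ← pow_add] at h3
    rw [← h3]
    congr 1
    omega

end

theorem right_desc (hord : G_ORD) (hpa : G_PA) (S W : Type) [Group W] (M : CoxeterMatrix S)
    (cs : CoxeterSystem M W) (i j : S) (hij : i ≠ j) (w : W)
    (hi : cs.length (w * cs.simple i) < cs.length w)
    (hj : cs.length (w * cs.simple j) < cs.length w) :
    M i j ≠ 0 ∧ ∃ u, w = u * al cs i j (M i j) ∧ cs.length w = cs.length u + M i j := by
  obtain ⟨hA, hB, hC⟩ := hpa S W M cs ({i, j} : Set S)
  obtain ⟨x, g, hg, hx, rfl⟩ := hB w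
  have hsi : cs.simple i ∈ par cs ({i, j} : Set S) :=
    Subgroup.subset_closure ⟨i, by simp, rfl⟩
  have hsj : cs.simple j ∈ par cs ({i, j} : Set S) :=
    Subgroup.subset_closure ⟨j, by simp, rfl⟩
  have hgi : cs.length (g * cs.simple i) < cs.length g := by
    rw [mul_assoc, hC x hx _ (mul_mem hg hsi), hC x hx g hg] at hi
    omega
  have hgj : cs.length (g * cs.simple j) < cs.length g := by
    rw [mul_assoc, hC x hx _ (mul_mem hg hsj), hC x hx g hg] at hj
    omega
  -- words
  have word : ∀ p q : S, p ≠ q → ({p, q} : Set S) = {i, j} → cs.simple p ∈ par cs ({i, j} : Set S) →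
      cs.length (g * cs.simple p) < cs.length g →
      g = cs.wordProd (alternatingWord q p (cs.length g)) ∧
        cs.IsReduced (alternatingWord q p (cs.length g)) := by
    intro p q hpq hset hp hlt
    obtain ⟨η, hr, hl, he⟩ := hA _ (mul_mem hg hp)
    have hlen : cs.length g = η.length + 1 := by
      have h1 := hr.eq
      rw [← he] at h1
      rcases cs.length_mul_simple g p with h2 | h2 <;> omega
    have hgη : g = cs.wordProd (η.concat p) := by
      rw [wordProd_concat, ← he, mul_assoc, simple_mul_simple_self, mul_one]
    have hred : cs.IsReduced (η.concat p) := by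
      unfold CoxeterSystem.IsReduced
      rw [← hgη, hlen, List.length_concat]
    have hl' : ∀ a ∈ η, a = p ∨ a = q := by
      intro a ha
      have h1 := hl a ha
      rw [← hset] at h1
      simpa using h1
    have h2 := alt_last cs p q hpq η hred hl'
    rw [hlen, ← h2]
    exact ⟨hgη, hred⟩
  obtain ⟨hgi1, hri⟩ := word i j hij rfl hsi hgi
  obtain ⟨hgj1, hrj⟩ := word j i hij.symm (Set.pair_comm j i) hsj hgj
  have hk : cs.length g ≠ 0 := by omega
  have hpow := pow_one_of_eq cs i j (cs.length g) (hgi1.symm.trans hgj1)
  have hdvd : M i j ∣ cs.length g := by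
    rw [← hord S W M cs i j]
    exact orderOf_dvd_of_pow_eq_one hpow
  have hM : M i j ≠ 0 := by
    intro h0
    rw [h0, zero_dvd_iff] at hdvd
    exact hk hdvd
  have hle : cs.length g ≤ M i j := by
    by_contra hcon
    exact cs.not_isReduced_alternatingWord i j hM (not_le.1 hcon) hrj
  have heq : cs.length g = M i j := le_antisymm hle (Nat.le_of_dvd (Nat.pos_of_ne_zero hk) hdvd)
  refine ⟨hM, x, ?_, ?_⟩
  · rw [al_m, ← heq, ← hgj1]
  · rw [hC x hx g hg, heq]

theorem h_gd (hord : G_ORD) (hpa : G_PA) (_hpb : G_PB) (_hpc : G_PC) : G_D := by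
  intro S W _ M cs i j hij
  refine ⟨by rw [al_m, al_m'], right_desc hord hpa S W M cs i j hij, ?_⟩
  intro w hi hj
  have hi' : cs.length (w⁻¹ * cs.simple i) < cs.length w⁻¹ := by
    have h1 : w⁻¹ * cs.simple i = (cs.simple i * w)⁻¹ := by rw [mul_inv_rev, inv_simple]
    rwa [h1, length_inv, length_inv]
  have hj' : cs.length (w⁻¹ * cs.simple j) < cs.length w⁻¹ := by
    have h1 : w⁻¹ * cs.simple j = (cs.simple j * w)⁻¹ := by rw [mul_inv_rev, inv_simple]
    rwa [h1, length_inv, length_inv]
  obtain ⟨hM, u, hu, hl⟩ := right_desc hord hpa S W M cs i j hij w⁻¹ hi' hj'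
  refine ⟨hM, u⁻¹, ?_, ?_⟩
  · have h2 := congrArg (·⁻¹) hu
    simp only [inv_inv, mul_inv_rev] at h2
    rw [h2, al_m_inv]
  · rw [length_inv] at hl ⊢
    omega

end Pool.Agent.Helper16.AM
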